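import Pool.Agent.Y716.Q.Num

/-!
# Project C of helper716, job C12: exponents and the logarithm condition
-/

set_option autoImplicit false

namespace Pool.Agent.Y606.C

open Filter Topology Pool.Agent.Y716

theorem exists_exponents {k s : ℕ} (hs : 1 ≤ s) (h : 2 * s + 2 ≤ k) : ∃ α β c r : ℕ, 2 ≤ c ∧
    1 ≤ r ∧ s * α + 1 ≤ β ∧ 2 * c + 2 ≤ α ∧ β + (k - 1) + 2 ≤ (k - 1) * c ∧ c ≤ β ∧
    c + β + 2 ≤ 2 * r := by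
  obtain ⟨n, rfl⟩ : ∃ n, k = n + 1 := ⟨k - 1, by omega⟩
  have hn : 2 * s + 1 ≤ n := by omega
  rw [Nat.add_sub_cancel]
  refine ⟨16 * n, 4 * n * (4 * s + 1), 2 * (4 * s + 1 + 2 * n),
    4 * n * (4 * s + 1) + 2 * (4 * s + 1 + 2 * n), by omega, by omega, ?_, by omega, ?_, ?_,
    by omega⟩
  · nlinarith
  · obtain ⟨d, rfl⟩ : ∃ d, n = 2 * s + 1 + d := ⟨n - (2 * s + 1), by omega⟩
    nlinarith [Nat.zero_le (s * d), Nat.zero_le (d * d), Nat.zero_le (s * s)]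
  · nlinarith [Nat.mul_le_mul hs hn]

theorem log_cond (k r c β : ℕ) : ∃ Y₀ : ℝ, ∀ Y : ℝ, Y₀ ≤ Y → ∀ t : ℕ,
    (t : ℝ) ≤ 15 * (k : ℝ) ^ 2 * (((r : ℕ) : ℝ) * ((⌊Y ^ c⌋₊ : ℕ) : ℝ)) * (2 * Y ^ β) →
      (Nat.log 2 t : ℝ) ≤ 2 * Y := by
  obtain ⟨Y₀, hY₀⟩ := eventually_atTop.1
    (Q.eventually_exp (30 * (k : ℝ) ^ 2 * r) (c + β))
  refine ⟨max Y₀ 0, fun Y hY t ht => ?_⟩
  have h0 : 0 ≤ Y := (le_max_right _ _).trans hY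
  have h1 := hY₀ Y ((le_max_left _ _).trans hY)
  refine Q.log_bound h0 h1 t (ht.trans ?_)
  have h2 : ((⌊Y ^ c⌋₊ : ℕ) : ℝ) ≤ Y ^ c := Nat.floor_le (by positivity)
  have h3 : (15 * (k : ℝ) ^ 2 * ((r : ℝ) * ((⌊Y ^ c⌋₊ : ℕ) : ℝ)) * (2 * Y ^ β)) ≤
      15 * (k : ℝ) ^ 2 * ((r : ℝ) * Y ^ c) * (2 * Y ^ β) := by
    gcongr
  refine h3.trans_eq ?_
  rw [pow_add]
  ring

end Pool.Agent.Y606.C
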